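import Pool.Agent.H629.CG.Stm

/-!
Project CG (helper629), problem MP_e22585_pr: `S_UI` and `S_SLLN`, by helper870.
-/

set_option autoImplicit false

namespace Pool.Agent.H870.CG.UI

open Pool.Agent.H629.CG
open MeasureTheory ProbabilityTheory Filter Topology Set
open scoped ENNReal NNReal

/-- The elementary inequality. -/
theorem key {p : ℝ} (hp : 1 < p) {R : ℝ≥0∞} (hR0 : R ≠ 0) (hR : R ≠ ∞) (x : ℝ≥0∞) :
    x ≤ min x R + R ^ (-(p - 1)) * x ^ p := by
  by_cases h : x ≤ R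
  · rw [min_eq_left h]
    exact le_self_add
  · push Not at h
    have hx0 : x ≠ 0 := (pos_of_gt h).ne'
    refine le_add_left ?_
    by_cases hx : x = ∞
    · rw [hx, ENNReal.top_rpow_of_pos (by linarith), ENNReal.mul_top]
      rw [ne_eq, ENNReal.rpow_eq_zero_iff]
      rintro (h1 | h1)
      · exact hR0 h1.1
      · exact hR h1.1
    · have h1 : x = x ^ (-(p - 1)) * x ^ p := by
        rw [← ENNReal.rpow_add _ _ hx0 hx]
        have : -(p - 1) + p = 1 := by ring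
        rw [this, ENNReal.rpow_one]
      have h2 : x ^ (-(p - 1)) ≤ R ^ (-(p - 1)) := by
        rw [ENNReal.rpow_neg, ENNReal.rpow_neg]
        exact ENNReal.inv_le_inv.2 (ENNReal.rpow_le_rpow h.le (by linarith))
      calc x = x ^ (-(p - 1)) * x ^ p := h1
        _ ≤ R ^ (-(p - 1)) * x ^ p := by gcongr

/-- Uniform integrability. -/
theorem aux {Ω : Type} [MeasurableSpace Ω] (P : Measure Ω) [IsProbabilityMeasure P]
    (f : ℕ → Ω → ℝ≥0∞) (f' : Ω → ℝ≥0∞) (hf : ∀ n, Measurable (f n)) (_hf' : Measurable f')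
    (hlim : ∀ᵐ ω ∂P, Tendsto (fun n => f n ω) atTop (𝓝 (f' ω))) (p : ℝ) (hp : 1 < p)
    (C : ℝ≥0∞) (hC : C ≠ ∞) (hb : ∀ n, ∫⁻ ω, f n ω ^ p ∂P ≤ C) :
    Tendsto (fun n => ∫⁻ ω, f n ω ∂P) atTop (𝓝 (∫⁻ ω, f' ω ∂P)) ∧ ∫⁻ ω, f' ω ∂P ≠ ∞ := by
  -- the upper bound
  have h1 : ∀ R : ℝ≥0∞, R ≠ 0 → R ≠ ∞ → ∀ n,
      ∫⁻ ω, f n ω ∂P ≤ ∫⁻ ω, min (f n ω) R ∂P + R ^ (-(p - 1)) * C := by
    intro R hR0 hR n
    calc ∫⁻ ω, f n ω ∂P ≤ ∫⁻ ω, (min (f n ω) R + R ^ (-(p - 1)) * f n ω ^ p) ∂P :=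
          lintegral_mono fun ω => key hp hR0 hR _
      _ = ∫⁻ ω, min (f n ω) R ∂P + ∫⁻ ω, R ^ (-(p - 1)) * f n ω ^ p ∂P :=
          lintegral_add_left ((hf n).min measurable_const) _
      _ = ∫⁻ ω, min (f n ω) R ∂P + R ^ (-(p - 1)) * ∫⁻ ω, f n ω ^ p ∂P := by
          rw [lintegral_const_mul _ ((hf n).pow_const p)]
      _ ≤ _ := by gcongr; exact hb n
  -- Fatou
  have h2 : ∫⁻ ω, f' ω ∂P ≤ liminf (fun n => ∫⁻ ω, f n ω ∂P) atTop := by
    calc ∫⁻ ω, f' ω ∂P = ∫⁻ ω, liminf (fun n => f n ω) atTop ∂P :=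
          lintegral_congr_ae (hlim.mono fun _ h => h.liminf_eq.symm)
      _ ≤ _ := lintegral_liminf_le hf
  -- the limsup
  have h3 : ∀ R : ℝ≥0∞, R ≠ 0 → R ≠ ∞ → limsup (fun n => ∫⁻ ω, f n ω ∂P) atTop ≤
      ∫⁻ ω, f' ω ∂P + R ^ (-(p - 1)) * C := by
    intro R hR0 hR
    have h4 : Tendsto (fun n => ∫⁻ ω, min (f n ω) R ∂P) atTop (𝓝 (∫⁻ ω, min (f' ω) R ∂P)) := by
      refine tendsto_lintegral_of_dominated_convergence (fun _ => R)
        (fun n => (hf n).min measurable_const) (fun n => ae_of_all _ fun ω => min_le_right _ _)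
        ?_ (hlim.mono fun ω h => h.min tendsto_const_nhds)
      rw [lintegral_const, measure_univ, mul_one]
      exact hR
    have h5 : Tendsto (fun n => ∫⁻ ω, min (f n ω) R ∂P + R ^ (-(p - 1)) * C) atTop
        (𝓝 (∫⁻ ω, min (f' ω) R ∂P + R ^ (-(p - 1)) * C)) := h4.add tendsto_const_nhds
    calc limsup (fun n => ∫⁻ ω, f n ω ∂P) atTop ≤
          limsup (fun n => ∫⁻ ω, min (f n ω) R ∂P + R ^ (-(p - 1)) * C) atTop :=
          limsup_le_limsup (Eventually.of_forall fun n => h1 R hR0 hR n)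
      _ = ∫⁻ ω, min (f' ω) R ∂P + R ^ (-(p - 1)) * C := h5.limsup_eq
      _ ≤ _ := by
          gcongr
          exact min_le_left _ _
  have h6 : limsup (fun n => ∫⁻ ω, f n ω ∂P) atTop ≤ ∫⁻ ω, f' ω ∂P := by
    have h7 : Tendsto (fun k : ℕ => ((k : ℝ≥0∞)) ^ (-(p - 1))) atTop (𝓝 0) := by
      have h8 : Tendsto (fun k : ℕ => ((k : ℝ≥0∞)) ^ (-(p - 1))) atTop
          (𝓝 ((∞ : ℝ≥0∞) ^ (-(p - 1)))) :=
        (ENNReal.continuous_rpow_const.tendsto ∞).comp ENNReal.tendsto_nat_nhds_top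
      rwa [ENNReal.top_rpow_of_neg (by linarith)] at h8
    have h9 : Tendsto (fun k : ℕ => ∫⁻ ω, f' ω ∂P + ((k : ℝ≥0∞)) ^ (-(p - 1)) * C) atTop
        (𝓝 (∫⁻ ω, f' ω ∂P + 0 * C)) :=
      tendsto_const_nhds.add (ENNReal.Tendsto.mul_const h7 (Or.inr hC))
    rw [zero_mul, add_zero] at h9
    refine ge_of_tendsto h9 ?_
    filter_upwards [eventually_gt_atTop 0] with k hk
    exact h3 k (by exact_mod_cast hk.ne') (ENNReal.natCast_ne_top k)
  refine ⟨tendsto_of_le_liminf_of_limsup_le h2 h6, ?_⟩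
  have h10 : limsup (fun n => ∫⁻ ω, f n ω ∂P) atTop ≤ 1 + C := by
    refine limsup_le_of_le (by isBoundedDefault) (Eventually.of_forall fun n => ?_)
    refine (h1 1 one_ne_zero ENNReal.one_ne_top n).trans ?_
    rw [ENNReal.one_rpow, one_mul]
    gcongr
    calc ∫⁻ ω, min (f n ω) 1 ∂P ≤ ∫⁻ _, (1 : ℝ≥0∞) ∂P := lintegral_mono fun ω => min_le_right _ _
      _ = 1 := by rw [lintegral_const, measure_univ, mul_one]
  have h11 : ∫⁻ ω, f' ω ∂P ≤ 1 + C :=
    h2.trans ((liminf_le_limsup (by isBoundedDefault) (by isBoundedDefault)).trans h10)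
  exact ne_top_of_le_ne_top (ENNReal.add_ne_top.2 ⟨ENNReal.one_ne_top, hC⟩) h11

theorem t_UI : S_UI := by
  intro Ω _ P _ Z Z' hZ hZ' hlim _ a b C hab hC hb
  have ha : a ≠ 0 := by
    rcases hab with h | h
    · exact h.1.ne'
    · exact h.2.ne
  have hp : 1 < b / a := by
    rcases hab with h | h
    · rw [one_lt_div h.1]; exact h.2
    · rw [one_lt_div_of_neg h.2]; exact h.1
  refine aux P (fun n ω => Z n ω ^ a) (fun ω => Z' ω ^ a) (fun n => (hZ n).pow_const a)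
    (hZ'.pow_const a) (hlim.mono fun ω h => (ENNReal.continuous_rpow_const.tendsto _).comp h)
    (b / a) hp C hC ?_
  intro n
  refine le_trans (le_of_eq ?_) (hb n)
  refine lintegral_congr fun ω => ?_
  rw [← ENNReal.rpow_mul, mul_div_cancel₀ b ha]

theorem t_SLLN : S_SLLN := by
  intro S _ ν _ g hg hint
  have hmp : ∀ i : ℕ, MeasurePreserving (Function.eval i) (Measure.infinitePi fun _ : ℕ => ν) ν :=
    fun i => measurePreserving_eval_infinitePi (fun _ : ℕ => ν) i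
  have hi : Integrable (fun U : ℕ → S => g (U 0)) (Measure.infinitePi fun _ : ℕ => ν) :=
    (hmp 0).integrable_comp_of_integrable hint
  have hind : iIndepFun (fun (i : ℕ) (U : ℕ → S) => g (U i))
      (Measure.infinitePi fun _ : ℕ => ν) :=
    iIndepFun_infinitePi (P := fun _ : ℕ => ν) (X := fun _ => g) (fun _ => hg)
  have hid : ∀ i : ℕ, IdentDistrib (fun U : ℕ → S => g (U i)) (fun U : ℕ → S => g (U 0))
      (Measure.infinitePi fun _ : ℕ => ν) (Measure.infinitePi fun _ : ℕ => ν) := by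
    intro i
    refine ⟨(hg.comp (measurable_pi_apply i)).aemeasurable,
      (hg.comp (measurable_pi_apply 0)).aemeasurable, ?_⟩
    have h1 : ∀ j : ℕ, Measure.map (fun U : ℕ → S => g (U j))
        (Measure.infinitePi fun _ : ℕ => ν) = Measure.map g ν := by
      intro j
      have h2 : (fun U : ℕ → S => g (U j)) = g ∘ Function.eval j := rfl
      rw [h2, ← Measure.map_map hg (measurable_pi_apply j), (hmp j).map_eq]
    rw [h1 i, h1 0]
  have hs := strong_law_ae_real (fun (i : ℕ) (U : ℕ → S) => g (U i)) hi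
    (fun i j hij => hind.indepFun hij) hid
  have he : ∫ U : ℕ → S, g (U 0) ∂(Measure.infinitePi fun _ : ℕ => ν) = ∫ u, g u ∂ν := by
    have h1 := (hmp 0).map_eq
    conv_rhs => rw [← h1]
    rw [integral_map (measurable_pi_apply 0).aemeasurable hg.aestronglyMeasurable]
  filter_upwards [hs] with U hU
  rw [he] at hU
  have h3 := (tendsto_add_atTop_iff_nat 1).2 hU
  refine h3.congr fun n => ?_
  rw [Finset.sum_range, Nat.cast_add, Nat.cast_one]

end Pool.Agent.H870.CG.UI
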